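import Pool.Agent.H669.FT.Most

/-!
# The generic `k`-rank of forms in `n` variables up to lower order terms

Let `n ≥ 3`, `N(m) = binom (n + m - 1) (n - 1)`. There is a constant `C = C(n)` such that for ALL
`k, d ≥ 1` the generic `k`-rank `s₀` of forms of degree `k d` in `n` variables satisfies

`N(k d) / N(d) ≤ s₀ ≤ N(k d) / N(d) + C (1 + k ^ (n - 2) / d)`,

where the parameter count on the left is of the order `k ^ (n - 1)`; more precisely
`s₀ ≤ s` for every `s ≥ C` with `s N(d) ≥ (1 + C / (k d)) N(k d)`. So `s₀` is the least `s` with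
`s N(d) ≥ N(k d)`, as asserted by Ottaviani for `k ≥ 3`, whenever this least `s` is at least `C` and
satisfies the inequality with the factor `1 + C / (k d)`. For `k ≥ C` this is the case for all
`d ≥ 1` but at most `C k ^ (n - 2) (1 + log k)` numbers `d` (the numbers `d` with
`N(k d) / N(d) ≤ k ^ (n - 1) - 1` are of the order `k ^ (n - 1)`; for the larger ones the equality
follows from the upper bound `k ^ (n - 1)` of Fröberg, Ottaviani and Shapiro).

Proof. By Terracini's lemma (the argument of the library for three variables) it is enough that the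
powers `ℓ_i ^ (d (k - 1))` of some linear forms generate all forms of degree `k d`. By apolarity this
means that there is no form of degree `k d` with multiplicity `d + 1` at `s` general points, which is
true if `k d ≤ T - C`, `T = (s (d + 1) (d + 2) ⋯ (d + n - 1)) ^ (1 / (n - 1))`, by the theorem of the
team on bounded windows (`AllMultiplicitiesWindow` of `MP_b56c98_ag`). The exceptional `d` are
counted with estimates for the growth of `N(k d) / N(d)` as a function of `d`.
-/

set_option autoImplicit false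

namespace Pool.Agent.Results.MP_27fe77_ag.GenericRankUpToLowerOrder

open MvPolynomial

/-- `f` is a sum of `t` `k`-th powers of forms of degree `d` in `n` variables. -/
def IsSum (n k d t : ℕ) (f : MvPolynomial (Fin n) ℂ) : Prop :=
  ∃ g : Fin t → MvPolynomial (Fin n) ℂ, (∀ i, (g i).IsHomogeneous d) ∧ f = ∑ i, g i ^ k

/-- The generic `k`-rank of forms of degree `k d` in `n` variables is `s`: there is a nonzero
polynomial `Ψ` in the coefficients of the forms of degree `k d` such that `s` is the least number of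
`k`-th powers of forms of degree `d` with sum `f`, for every form `f` at which `Ψ` does not vanish. -/
def IsGenericRank (n k d s : ℕ) : Prop :=
  ∃ Ψ : MvPolynomial {m : Fin n →₀ ℕ // Finsupp.degree m = k * d} ℂ, Ψ ≠ 0 ∧
    ∀ f : MvPolynomial (Fin n) ℂ, f.IsHomogeneous (k * d) →
      eval (fun m : {m : Fin n →₀ ℕ // Finsupp.degree m = k * d} => f.coeff m.1) Ψ ≠ 0 →
      IsLeast {t : ℕ | IsSum n k d t f} s

/-- The dimension `N_n(m)` of the space of forms of degree `m` in `n` variables. -/
def dimForms (n m : ℕ) : ℕ := (n + m - 1).choose (n - 1)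

/-- **Main result.** For every `n ≥ 3` there is a constant `C` such that for all `k, d ≥ 1` the
generic `k`-rank `s₀` of forms of degree `k d` in `n` variables satisfies

(1) `N(k d) ≤ s₀ N(d)` and `s₀ ≤ N(k d) / N(d) + C (1 + k ^ (n - 2) / d)`;

(2) `s₀ ≤ s` for all `s ≥ C` with `(1 + C / (k d)) N(k d) ≤ s N(d)`;

(3) `s₀ = min {s : s N(d) ≥ N(k d)}` if this minimum is at least `C` and satisfies the inequality
in (2);

(4) for every `k ≥ C` the generic `k`-rank is `min {s : s N(d) ≥ N(k d)}` for all `d ≥ 1` but at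
most `C k ^ (n - 2) (1 + log k)` numbers `d`. -/
theorem result (n : ℕ) (hn : 3 ≤ n) : ∃ C : ℕ,
    (∀ k d : ℕ, 1 ≤ k → 1 ≤ d →
      ∃ s₀ : ℕ, IsGenericRank n k d s₀ ∧
        dimForms n (k * d) ≤ s₀ * dimForms n d ∧
        (s₀ : ℝ) ≤ dimForms n (k * d) / dimForms n d + C * (1 + (k : ℝ) ^ (n - 2) / d) ∧
        (∀ s : ℕ, C ≤ s →
          (1 + (C : ℝ) / (k * d : ℕ)) * dimForms n (k * d) ≤ s * dimForms n d → s₀ ≤ s) ∧
        (C ≤ sInf {s : ℕ | dimForms n (k * d) ≤ s * dimForms n d} →
          (1 + (C : ℝ) / (k * d : ℕ)) * dimForms n (k * d) ≤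
            ((sInf {s : ℕ | dimForms n (k * d) ≤ s * dimForms n d} : ℕ) : ℝ) * dimForms n d →
          s₀ = sInf {s : ℕ | dimForms n (k * d) ≤ s * dimForms n d})) ∧
    ∀ k : ℕ, C ≤ k → ∃ S : Finset ℕ,
      (S.card : ℝ) ≤ C * (k : ℝ) ^ (n - 2) * (1 + Real.log k) ∧
      ∀ d : ℕ, 1 ≤ d → d ∉ S →
        IsGenericRank n k d (sInf {s : ℕ | dimForms n (k * d) ≤ s * dimForms n d}) := by
  obtain ⟨j, rfl⟩ : ∃ j, n = j + 3 := ⟨n - 3, by omega⟩
  obtain ⟨C, hC⟩ := Pool.Agent.H669.FT.rank_bounds j
  obtain ⟨A, k₁, hA⟩ := Pool.Agent.H669.FT.few_bad (j + 2) C (by omega)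
  have hdim : ∀ m, dimForms (j + 3) m = (m + (j + 2)).choose (j + 2) := by
    intro m
    unfold dimForms
    congr 1
    omega
  have e0 : j + 3 - 2 = j + 1 := rfl
  obtain ⟨D, hD⟩ : ∃ D : ℕ, D = 2 * C + A + k₁ + 2 + C * (j + 3) ^ (j + 2) := ⟨_, rfl⟩
  refine ⟨D, fun k d hk hd => ?_, fun k hk => ?_⟩
  · obtain ⟨s₀, h1, h2, h3, h4⟩ := hC k d hk hd
    have h5 : ∀ s : ℕ, D ≤ s →
        (1 + (D : ℝ) / (k * d : ℕ)) * dimForms (j + 3) (k * d) ≤
          s * dimForms (j + 3) d → s₀ ≤ s := by
      intro s hs h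
      refine h3 s (by omega) ?_
      rw [hdim, hdim] at h
      refine le_trans (mul_le_mul_of_nonneg_right ?_ (Nat.cast_nonneg _)) h
      have h6 : (C : ℝ) / (k * d : ℕ) ≤ (D : ℝ) / (k * d : ℕ) := by
        refine div_le_div_of_nonneg_right ?_ (Nat.cast_nonneg _)
        exact_mod_cast (by omega : C ≤ D)
      linarith
    have h7 : dimForms (j + 3) (k * d) ≤ s₀ * dimForms (j + 3) d := by
      rw [hdim, hdim]
      exact h2
    refine ⟨s₀, h1, h7, ?_, h5, fun h8 h9 => ?_⟩
    · rw [hdim, hdim, e0]
      refine h4.trans (add_le_add le_rfl (mul_le_mul_of_nonneg_right ?_ (by positivity)))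
      have : 2 * C ≤ D := by omega
      exact_mod_cast this
    · exact le_antisymm (h5 _ h8 h9) (Nat.sInf_le h7)
  · obtain ⟨S, hS, hS2⟩ := hA k (by omega) (by omega)
    have hk2 : 2 ≤ k := by omega
    have hkR : (2 : ℝ) ≤ k := by exact_mod_cast hk2
    refine ⟨S, ?_, fun d hd hdS => ?_⟩
    · have e1 : j + 2 - 1 = j + 1 := rfl
      rw [e1] at hS
      rw [e0]
      refine hS.trans (mul_le_mul_of_nonneg_right (mul_le_mul_of_nonneg_right ?_ (by positivity))
        ?_)
      · have : A ≤ D := by omega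
        exact_mod_cast this
      · have := Real.log_nonneg (by linarith : (1 : ℝ) ≤ k)
        linarith
    · obtain ⟨s₀, h1, h2, h3, h4⟩ := hC k d (by omega) hd
      have hb : 0 < dimForms (j + 3) d := by
        rw [hdim]
        exact Nat.choose_pos (by omega)
      have hbR : (0 : ℝ) < dimForms (j + 3) d := by exact_mod_cast hb
      have h7 : s₀ ∈ {s : ℕ | dimForms (j + 3) (k * d) ≤ s * dimForms (j + 3) d} := by
        show dimForms (j + 3) (k * d) ≤ s₀ * dimForms (j + 3) d
        rw [hdim, hdim]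
        exact h2
      obtain ⟨m, hm⟩ : ∃ m, m = sInf {s : ℕ | dimForms (j + 3) (k * d) ≤
        s * dimForms (j + 3) d} := ⟨_, rfl⟩
      have hmem : dimForms (j + 3) (k * d) ≤ m * dimForms (j + 3) d := by
        rw [hm]
        exact Nat.sInf_mem ⟨s₀, h7⟩
      have hx : Pool.Agent.H669.FT.xf (j + 2) k d =
          (dimForms (j + 3) (k * d) : ℝ) / dimForms (j + 3) d := by
        rw [hdim, hdim]
        exact Pool.Agent.H669.FT.xf_eq_ratio j k d
      have hx1 : (dimForms (j + 3) (k * d) : ℝ) =
          Pool.Agent.H669.FT.xf (j + 2) k d * dimForms (j + 3) d := by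
        rw [hx, div_mul_cancel₀ _ hbR.ne']
      have hxm : Pool.Agent.H669.FT.xf (j + 2) k d ≤ m := by
        rw [hx, div_le_iff₀ hbR]
        exact_mod_cast hmem
      have hmx : (m : ℝ) < Pool.Agent.H669.FT.xf (j + 2) k d + 1 := by
        rcases Nat.eq_zero_or_pos m with h0 | h0
        · rw [h0, Nat.cast_zero]
          have := Pool.Agent.H669.FT.xf_pos (j + 2) k d
          linarith
        · have h8 : m - 1 ∉ {s : ℕ | dimForms (j + 3) (k * d) ≤ s * dimForms (j + 3) d} :=
            Nat.notMem_of_lt_sInf (by omega)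
          have h9 : (m - 1) * dimForms (j + 3) d < dimForms (j + 3) (k * d) := not_le.1 h8
          have h10 : (((m - 1 : ℕ) : ℝ)) * dimForms (j + 3) d < dimForms (j + 3) (k * d) := by
            exact_mod_cast h9
          rw [hx1] at h10
          have h11 := lt_of_mul_lt_mul_right h10 hbR.le
          rw [Nat.cast_sub h0] at h11
          push_cast at h11
          linarith
      have h8 := hS2 d m hd hdS hxm hmx
      -- the number is large
      have hCm : C ≤ m := by
        have h9 := Pool.Agent.H669.FT.xf_ge (N := j + 2) (k := k) hd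
        have h10 : (C : ℝ) ≤ (k : ℝ) ^ (j + 2) / (((j + 2 : ℕ) : ℝ) + 1) ^ (j + 2) := by
          rw [le_div_iff₀ (by positivity)]
          have h11 : C * (j + 3) ^ (j + 2) ≤ k := by omega
          have h12 : ((C * (j + 3) ^ (j + 2) : ℕ) : ℝ) ≤ k := by exact_mod_cast h11
          have h13 : (k : ℝ) ≤ (k : ℝ) ^ (j + 2) := le_self_pow₀ (by linarith) (by omega)
          push_cast at h12 ⊢
          have e3 : (j : ℝ) + 2 + 1 = j + 3 := by ring
          rw [e3]
          exact h12.trans h13
        have h11 : (C : ℝ) ≤ m := h10.trans (h9.trans hxm)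
        exact_mod_cast h11
      have h9 : s₀ ≤ m := by
        refine h3 m hCm ?_
        rw [← hdim, ← hdim, hx1, ← mul_assoc]
        exact mul_le_mul_of_nonneg_right h8 hbR.le
      have h10 : m ≤ s₀ := by
        rw [hm]
        exact Nat.sInf_le h7
      rw [← hm, le_antisymm h10 h9]
      exact h1

end Pool.Agent.Results.MP_27fe77_ag.GenericRankUpToLowerOrder
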